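import Pool.Agent.Y754.BC.Plane

/-!
# The cover of the sphere
-/

set_option autoImplicit false

open Finset

namespace Pool.Agent.Y754.BC

open Pool.Agent.Results.MP_01ee34_gt.Disproof

/-- the sum of the squares of the coordinates of `x` with numbers at most `m - 2` -/
noncomputable def q (d m : ℕ) (x : E d) : ℝ :=
  ∑ j : Fin (d + 1), if j.val + 2 ≤ m then (x j) ^ 2 else 0

/-- the points of the sphere whose coordinates with numbers from `1` to `m - 2` are at most
`δ` -/
def T (d m : ℕ) (δ : ℝ) : Set (E d) :=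
  {x | x ∈ Sph d ∧ ∀ j : Fin (d + 1), 1 ≤ j.val ∧ j.val + 2 ≤ m → x j ≤ δ}

/-- the cover -/
def F (d m : ℕ) (δ s : ℝ) (k : Fin m) : Set (E d) :=
  if k.val = 0 then {x | x ∈ T d m δ ∧ s ≤ q d m x}
  else if k.val + 1 = m then {x | x ∈ T d m δ ∧ q d m x ≤ s}
  else {x | x ∈ Sph d ∧ ∀ j : Fin (d + 1), j.val = k.val → δ ≤ x j}

lemma q_cont (d m : ℕ) : Continuous (q d m) := by
  unfold q
  refine continuous_finset_sum _ fun j _ => ?_
  split_ifs
  · fun_prop
  · exact continuous_const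

lemma T_closed (d m : ℕ) (δ : ℝ) : IsClosed (T d m δ) := by
  have e : T d m δ = Sph d ∩ ⋂ j : Fin (d + 1), ⋂ _ : 1 ≤ j.val ∧ j.val + 2 ≤ m,
      {x : E d | x j ≤ δ} := by
    ext x
    simp only [T, Set.mem_ofPred_eq, Set.mem_inter_iff, Set.mem_iInter]
  rw [e]
  refine IsClosed.inter Metric.isClosed_sphere (isClosed_iInter fun j => isClosed_iInter fun _ => ?_)
  exact isClosed_le (by fun_prop) continuous_const

lemma F_closed (d m : ℕ) (δ s : ℝ) (k : Fin m) : IsClosed (F d m δ s k) := by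
  unfold F
  split_ifs
  · exact (T_closed d m δ).inter (isClosed_le continuous_const (q_cont d m))
  · exact (T_closed d m δ).inter (isClosed_le (q_cont d m) continuous_const)
  · have e : {x | x ∈ Sph d ∧ ∀ j : Fin (d + 1), j.val = k.val → δ ≤ x j} =
        Sph d ∩ ⋂ j : Fin (d + 1), ⋂ _ : j.val = k.val, {x : E d | δ ≤ x j} := by
      ext x
      simp only [Set.mem_ofPred_eq, Set.mem_inter_iff, Set.mem_iInter]
    rw [e]
    refine IsClosed.inter Metric.isClosed_sphere
      (isClosed_iInter fun j => isClosed_iInter fun _ => ?_)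
    exact isClosed_le continuous_const (by fun_prop)

lemma F_cover (d m : ℕ) (hm : 2 ≤ m) (hmd : m ≤ d) (δ s : ℝ) :
    IsClosedCover d m (F d m δ s) := by
  refine ⟨F_closed d m δ s, ?_⟩
  ext x
  simp only [Set.mem_iUnion]
  constructor
  · rintro ⟨k, hk⟩
    unfold F at hk
    split_ifs at hk
    · exact hk.1.1
    · exact hk.1.1
    · exact hk.1
  · intro hx
    by_cases h : ∃ j : Fin (d + 1), (1 ≤ j.val ∧ j.val + 2 ≤ m) ∧ δ < x j
    · obtain ⟨j, ⟨h1, h2⟩, h3⟩ := h
      refine ⟨⟨j.val, by omega⟩, ?_⟩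
      unfold F
      rw [if_neg (by simp only; omega), if_neg (by simp only; omega)]
      refine ⟨hx, fun j' hj' => ?_⟩
      have : j' = j := Fin.ext hj'
      rw [this]
      exact h3.le
    · push Not at h
      have hT : x ∈ T d m δ := ⟨hx, fun j hj => h j hj⟩
      rcases le_total s (q d m x) with h1 | h1
      · refine ⟨⟨0, by omega⟩, ?_⟩
        unfold F
        rw [if_pos rfl]
        exact ⟨hT, h1⟩
      · refine ⟨⟨m - 1, by omega⟩, ?_⟩
        unfold F
        rw [if_neg (by simp only; omega), if_pos (by simp only; omega)]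
        exact ⟨hT, h1⟩

section rot

variable {d : ℕ} {ρ : Matrix (Fin (d + 1)) (Fin (d + 1)) ℝ}

lemma row_norm (hρ : ρ ∈ Matrix.specialOrthogonalGroup (Fin (d + 1)) ℝ) (j : Fin (d + 1)) :
    ∑ i, ρ j i ^ 2 = 1 := by
  have hO : ρ * ρ.transpose = 1 := by
    have := (Matrix.mem_specialOrthogonalGroup_iff.1 hρ).1
    exact (Matrix.mem_orthogonalGroup_iff (Fin (d + 1)) ℝ).1 this
  have h := congrFun (congrFun hO j) j
  rw [Matrix.mul_apply, Matrix.one_apply_eq] at h
  rw [← h]
  exact sum_congr rfl fun i _ => by rw [Matrix.transpose_apply, sq]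

lemma col_norm (hρ : ρ ∈ Matrix.specialOrthogonalGroup (Fin (d + 1)) ℝ) (i : Fin (d + 1)) :
    ∑ j, ρ j i ^ 2 = 1 := by
  have hO : ρ.transpose * ρ = 1 := by
    have := (Matrix.mem_specialOrthogonalGroup_iff.1 hρ).1
    exact (Matrix.mem_orthogonalGroup_iff' (Fin (d + 1)) ℝ).1 this
  have h := congrFun (congrFun hO i) i
  rw [Matrix.mul_apply, Matrix.one_apply_eq] at h
  rw [← h]
  exact sum_congr rfl fun j _ => by rw [Matrix.transpose_apply, sq]

lemma two_le (hd : 1 ≤ d) (hρ : ρ ∈ Matrix.specialOrthogonalGroup (Fin (d + 1)) ℝ)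
    (j : Fin (d + 1)) : ρ j 0 ^ 2 + ρ j 1 ^ 2 ≤ 1 := by
  rw [← row_norm hρ j]
  have h01 := zero_ne_one' hd
  have h := sum_le_sum_of_subset_of_nonneg (s := {(0 : Fin (d + 1)), 1}) (t := univ)
    (f := fun i => ρ j i ^ 2) (subset_univ _) (fun i _ _ => sq_nonneg _)
  rwa [sum_pair h01] at h

/-- the frame of the first `n = d + 3 - m` basis vectors has no copy in the last set -/
lemma frame_misses (m : ℕ) (hm : 2 ≤ m) (hmd : m ≤ d)
    (hρ : ρ ∈ Matrix.specialOrthogonalGroup (Fin (d + 1)) ℝ) (s : ℝ)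
    (hs : ((d + 3 - m : ℕ) : ℝ) * s < 1) :
    ∃ i : Fin (d + 1), i.val < d + 3 - m ∧
      s < q d m (Matrix.toEuclideanLin ρ (EuclideanSpace.single i (1 : ℝ))) := by
  by_contra hcon
  push Not at hcon
  set n := d + 3 - m with hn
  have hq : ∀ i : Fin (d + 1), q d m (Matrix.toEuclideanLin ρ (EuclideanSpace.single i (1 : ℝ))) =
      ∑ j : Fin (d + 1), if j.val + 2 ≤ m then ρ j i ^ 2 else 0 := by
    intro i
    unfold q
    refine sum_congr rfl fun j _ => ?_
    rw [coord]
  have h1 : ∑ i : Fin (d + 1), (if i.val < n then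
      q d m (Matrix.toEuclideanLin ρ (EuclideanSpace.single i (1 : ℝ))) else 0) ≤ n * s := by
    have hc := cnt d n (by omega)
    calc _ ≤ ∑ i : Fin (d + 1), (if i.val < n then (1 : ℝ) else 0) * s := by
          refine sum_le_sum fun i _ => ?_
          split_ifs with h
          · rw [one_mul]; exact hcon i h
          · rw [zero_mul]
      _ = n * s := by rw [← sum_mul, hc]
  have h2 : ∑ i : Fin (d + 1), (if i.val < n then (0 : ℝ) else
      q d m (Matrix.toEuclideanLin ρ (EuclideanSpace.single i (1 : ℝ)))) ≤ (d + 1) - n := by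
    have hc := cnt d n (by omega)
    have hq1 : ∀ i : Fin (d + 1),
        q d m (Matrix.toEuclideanLin ρ (EuclideanSpace.single i (1 : ℝ))) ≤ 1 := by
      intro i
      rw [hq, ← col_norm hρ i]
      refine sum_le_sum fun j _ => ?_
      split_ifs
      · exact le_rfl
      · exact sq_nonneg _
    calc _ ≤ ∑ i : Fin (d + 1), ((1 : ℝ) - if i.val < n then (1 : ℝ) else 0) := by
          refine sum_le_sum fun i _ => ?_
          split_ifs with h
          · norm_num
          · rw [sub_zero]; exact hq1 i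
      _ = (d + 1) - n := by
          rw [sum_sub_distrib, hc]
          simp
  have h3 : ∑ i : Fin (d + 1), q d m (Matrix.toEuclideanLin ρ (EuclideanSpace.single i (1 : ℝ))) =
      (m - 1 : ℕ) := by
    rw [sum_congr rfl fun i _ => hq i, sum_comm, ← cnt d (m - 1) (by omega)]
    refine sum_congr rfl fun j _ => ?_
    by_cases h : j.val + 2 ≤ m
    · rw [if_pos (by omega)]
      rw [sum_congr rfl fun i _ => if_pos h]
      exact row_norm hρ j
    · rw [if_neg (by omega)]
      rw [sum_congr rfl fun i _ => if_neg h]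
      simp
  have h4 : ∑ i : Fin (d + 1), q d m (Matrix.toEuclideanLin ρ (EuclideanSpace.single i (1 : ℝ))) =
      ∑ i : Fin (d + 1), (if i.val < n then
        q d m (Matrix.toEuclideanLin ρ (EuclideanSpace.single i (1 : ℝ))) else 0) +
      ∑ i : Fin (d + 1), (if i.val < n then (0 : ℝ) else
        q d m (Matrix.toEuclideanLin ρ (EuclideanSpace.single i (1 : ℝ)))) := by
    rw [← sum_add_distrib]
    refine sum_congr rfl fun i _ => ?_
    split_ifs <;> ring
  have h5 : ((m - 1 : ℕ) : ℝ) = m - 1 := by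
    rw [Nat.cast_sub (by omega)]; simp
  have h6 : (n : ℝ) = d + 3 - m := by
    rw [hn, Nat.cast_sub (by omega)]; push_cast; ring
  rw [h4, h5] at h3
  linarith

/-- the relation between the points number `0`, `1` and `2` -/
lemma relation (n : ℕ) (j : Fin (d + 1)) :
    (Matrix.toEuclideanLin ρ (pt d n 0)) j + (Matrix.toEuclideanLin ρ (pt d n 2)) j +
      2 * Real.cos (Real.pi / n) * (Matrix.toEuclideanLin ρ (pt d n 1)) j = 0 := by
  rw [coord_pt, coord_pt, coord_pt]
  unfold sg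
  simp only [if_true]
  norm_num
  rw [Real.cos_two_mul, Real.sin_two_mul]
  ring

end rot

lemma cos_ge {n : ℕ} (hn : 3 ≤ n) : 1 / 2 ≤ Real.cos (Real.pi / n) := by
  have hn0 : (3 : ℝ) ≤ n := by exact_mod_cast hn
  have hpi := Real.pi_pos
  rw [← Real.cos_pi_div_three]
  refine Real.cos_le_cos_of_nonneg_of_le_pi (by positivity) (by linarith) ?_
  exact div_le_div_of_nonneg_left hpi.le (by norm_num) hn0

lemma sin_pos' {n : ℕ} (hn : 3 ≤ n) : 0 < Real.sin (Real.pi / n) := by
  have hn0 : (3 : ℝ) ≤ n := by exact_mod_cast hn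
  have hpi := Real.pi_pos
  refine Real.sin_pos_of_pos_of_lt_pi (by positivity) ?_
  rw [div_lt_iff₀ (by positivity)]
  nlinarith

/-- a cap contains no copy of the planar configuration -/
lemma cap_misses {d : ℕ} {ρ : Matrix (Fin (d + 1)) (Fin (d + 1)) ℝ} {n : ℕ} (hn : 3 ≤ n)
    (j : Fin (d + 1)) (δ : ℝ) (hδ : 0 < δ)
    (h : ∀ i < n, δ ≤ (Matrix.toEuclideanLin ρ (pt d n i)) j) : False := by
  have hr := relation (ρ := ρ) n j
  have h0 := h 0 (by omega)
  have h1 := h 1 (by omega)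
  have h2 := h 2 (by omega)
  have hc := cos_ge hn
  have h3 : 0 < 2 * Real.cos (Real.pi / n) * (Matrix.toEuclideanLin ρ (pt d n 1)) j := by
    have : 0 < (Matrix.toEuclideanLin ρ (pt d n 1)) j := by linarith
    have : 0 < Real.cos (Real.pi / n) := by linarith
    positivity
  linarith

/-- coordinates that are at most `δ` at all points of the planar configuration are small -/
lemma small {d : ℕ} {ρ : Matrix (Fin (d + 1)) (Fin (d + 1)) ℝ} {n : ℕ} (hn : 3 ≤ n)
    (j : Fin (d + 1)) (δ : ℝ) (hδ : 0 < δ)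
    (h : ∀ i < n, (Matrix.toEuclideanLin ρ (pt d n i)) j ≤ δ) (i : ℕ) :
    ((Matrix.toEuclideanLin ρ (pt d n i)) j) ^ 2 ≤ (8 * δ / Real.sin (Real.pi / n)) ^ 2 := by
  have hr := relation (ρ := ρ) n j
  have h0 := h 0 (by omega)
  have h1 := h 1 (by omega)
  have h2 := h 2 (by omega)
  have hc := cos_ge hn
  have hs := sin_pos' hn
  have hs1 := Real.sin_le_one (Real.pi / n)
  have hc1 := Real.cos_le_one (Real.pi / n)
  set c := Real.cos (Real.pi / n) with hcdef
  set σ := Real.sin (Real.pi / n) with hσdef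
  set A0 := (Matrix.toEuclideanLin ρ (pt d n 0)) j with hA0
  set A1 := (Matrix.toEuclideanLin ρ (pt d n 1)) j with hA1
  set A2 := (Matrix.toEuclideanLin ρ (pt d n 2)) j with hA2
  have e0 : A0 = ρ j 0 := by
    rw [hA0, coord_pt]
    unfold sg
    simp
  have e1 : A1 = -(ρ j 0 * c + ρ j 1 * σ) := by
    rw [hA1, coord_pt, hcdef, hσdef]
    unfold sg
    rw [if_pos rfl, Nat.cast_one, one_mul]
    ring
  have b1 : 2 * c * A1 ≤ 2 * δ := by
    rcases le_total 0 A1 with h3 | h3
    · nlinarith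
    · nlinarith
  have b0 : -(3 * δ) ≤ A0 := by linarith
  have b1' : -(2 * δ) ≤ A1 := by
    by_contra h3
    push Not at h3
    have h4 : 2 * c * A1 < 2 * c * (-(2 * δ)) := mul_lt_mul_of_pos_left h3 (by linarith)
    nlinarith
  have p0 : |ρ j 0| ≤ 3 * δ := by
    rw [← e0, abs_le]
    exact ⟨b0, by linarith⟩
  have p1 : |ρ j 1| ≤ 5 * δ / σ := by
    rw [le_div_iff₀ hs]
    have e2 : ρ j 1 * σ = -A1 - ρ j 0 * c := by linarith
    have e3 : |ρ j 1| * σ = |ρ j 1 * σ| := by rw [abs_mul, abs_of_pos hs]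
    rw [e3, e2]
    have h4 : |ρ j 0 * c| ≤ 3 * δ := by
      rw [abs_mul, abs_of_pos (by linarith : 0 < c)]
      nlinarith [abs_nonneg (ρ j 0)]
    have h5 : |A1| ≤ 2 * δ := by
      rw [abs_le]; exact ⟨b1', by linarith⟩
    calc |-A1 - ρ j 0 * c| ≤ |-A1| + |ρ j 0 * c| := abs_sub _ _
      _ ≤ 2 * δ + 3 * δ := by rw [abs_neg]; linarith
      _ = 5 * δ := by ring
  rw [coord_pt, mul_pow, sg_sq, one_mul, sq_le_sq,
    abs_of_nonneg (show 0 ≤ 8 * δ / σ by positivity)]
  have hsm : 3 * δ ≤ 3 * δ / σ := by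
    rw [le_div_iff₀ hs]; nlinarith
  calc |ρ j 0 * Real.cos (i * (Real.pi / n)) + ρ j 1 * Real.sin (i * (Real.pi / n))| ≤
      |ρ j 0 * Real.cos (i * (Real.pi / n))| + |ρ j 1 * Real.sin (i * (Real.pi / n))| :=
        abs_add_le _ _
    _ ≤ |ρ j 0| + |ρ j 1| := by
        rw [abs_mul, abs_mul]
        have h6 := Real.abs_cos_le_one (i * (Real.pi / n))
        have h7 := Real.abs_sin_le_one (i * (Real.pi / n))
        have h8 := mul_le_of_le_one_right (abs_nonneg (ρ j 0)) h6
        have h9 := mul_le_of_le_one_right (abs_nonneg (ρ j 1)) h7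
        linarith
    _ ≤ 3 * δ / σ + 5 * δ / σ := by linarith
    _ = 8 * δ / σ := by ring

/-- the first set contains no copy of the planar configuration -/
lemma first_misses {d : ℕ} (hd : 1 ≤ d) {ρ : Matrix (Fin (d + 1)) (Fin (d + 1)) ℝ}
    (hρ : ρ ∈ Matrix.specialOrthogonalGroup (Fin (d + 1)) ℝ) {m n : ℕ} (hm : 2 ≤ m) (hn : 3 ≤ n)
    (δ s : ℝ) (hδ : 0 < δ)
    (hs : (Real.pi / (2 * n)) ^ 2 + d * (8 * δ / Real.sin (Real.pi / n)) ^ 2 < s)
    (h : ∀ i < n, Matrix.toEuclideanLin ρ (pt d n i) ∈ T d m δ ∧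
      s ≤ q d m (Matrix.toEuclideanLin ρ (pt d n i))) : False := by
  obtain ⟨i, hi, hle⟩ := planar n (by omega) (ρ 0 0) (ρ 0 1) (two_le hd hρ 0)
  have h1 := (h i hi).2
  have h0 : ((Matrix.toEuclideanLin ρ (pt d n i)) 0) ^ 2 ≤ (Real.pi / (2 * n)) ^ 2 := by
    rw [coord_pt, mul_pow, sg_sq, one_mul, sq_le_sq,
      abs_of_nonneg (show 0 ≤ Real.pi / (2 * n) by positivity)]
    exact hle
  have h2 : q d m (Matrix.toEuclideanLin ρ (pt d n i)) ≤
      (Real.pi / (2 * n)) ^ 2 + d * (8 * δ / Real.sin (Real.pi / n)) ^ 2 := by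
    unfold q
    rw [Fin.sum_univ_succ]
    refine add_le_add ?_ ?_
    · rw [if_pos (by simpa using hm)]
      exact h0
    · calc _ ≤ ∑ _j : Fin d, (8 * δ / Real.sin (Real.pi / n)) ^ 2 := by
            refine sum_le_sum fun j _ => ?_
            split_ifs with h3
            · refine small hn _ δ hδ (fun i' hi' => ?_) i
              exact (h i' hi').1.2 j.succ ⟨by simp, h3⟩
            · positivity
        _ = d * (8 * δ / Real.sin (Real.pi / n)) ^ 2 := by simp
  linarith

end Pool.Agent.Y754.BC
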