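import Pool.Agent.Results.MP_01ee34_gt.Disproof

/-!
# Planar configurations and orthonormal frames
-/

set_option autoImplicit false

open Finset

namespace Pool.Agent.Y754.BC

open Pool.Agent.Results.MP_01ee34_gt.Disproof

/-- one of `n` equally spaced lines is almost orthogonal to a given direction -/
lemma exists_near (n : ℕ) (hn : 1 ≤ n) (φ : ℝ) :
    ∃ i : ℕ, i < n ∧ |Real.cos (φ - i * (Real.pi / n))| ≤ Real.pi / (2 * n) := by
  have hn0 : (0 : ℝ) < n := by exact_mod_cast hn
  have hpi := Real.pi_pos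
  set t : ℝ := (φ - Real.pi / 2) * (n / Real.pi) with ht
  set k : ℤ := round t with hk
  have hkt : |t - k| ≤ 1 / 2 := abs_sub_round t
  have hnz : (n : ℤ) ≠ 0 := by exact_mod_cast (by omega : n ≠ 0)
  have hi0 : 0 ≤ k % n := Int.emod_nonneg k hnz
  have hi1 : k % n < n := Int.emod_lt_of_pos k (by exact_mod_cast hn)
  obtain ⟨i, hi⟩ := Int.eq_ofNat_of_zero_le hi0
  refine ⟨i, by omega, ?_⟩
  have hdiv : (k : ℝ) = n * (k / n : ℤ) + i := by
    have h := Int.mul_ediv_add_emod k n
    rw [hi] at h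
    have h2 : ((n * (k / n) + (i : ℤ) : ℤ) : ℝ) = k := by rw [h]
    push_cast at h2
    rw [← h2]
  have hφ : φ - i * (Real.pi / n) =
      (Real.pi / 2 + (t - k) * (Real.pi / n)) + (k / n : ℤ) * Real.pi := by
    have h1 : t * (Real.pi / n) = φ - Real.pi / 2 := by
      rw [ht]; field_simp
    have h2 : (k : ℝ) * (Real.pi / n) = (k / n : ℤ) * Real.pi + i * (Real.pi / n) := by
      rw [hdiv]
      field_simp
    rw [sub_mul, h1, h2]
    ring
  rw [hφ, Real.cos_add_int_mul_pi, abs_mul, abs_zpow, abs_neg, abs_one, one_zpow, one_mul,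
    add_comm, Real.cos_add_pi_div_two, abs_neg]
  have h3 : |Real.sin ((t - k) * (Real.pi / n))| ≤ |(t - k) * (Real.pi / n)| :=
    Real.abs_sin_le_abs
  refine h3.trans ?_
  rw [abs_mul, abs_of_pos (show (0 : ℝ) < Real.pi / n by positivity)]
  calc |t - k| * (Real.pi / n) ≤ 1 / 2 * (Real.pi / n) :=
        mul_le_mul_of_nonneg_right hkt (by positivity)
    _ = Real.pi / (2 * n) := by field_simp

lemma planar (n : ℕ) (hn : 1 ≤ n) (a b : ℝ) (hab : a ^ 2 + b ^ 2 ≤ 1) :
    ∃ i : ℕ, i < n ∧ |a * Real.cos (i * (Real.pi / n)) + b * Real.sin (i * (Real.pi / n))| ≤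
      Real.pi / (2 * n) := by
  set z : ℂ := ⟨a, b⟩ with hz
  have h1 : a = ‖z‖ * Real.cos z.arg := by rw [Complex.norm_mul_cos_arg]
  have h2 : b = ‖z‖ * Real.sin z.arg := by rw [Complex.norm_mul_sin_arg]
  have hr : ‖z‖ ≤ 1 := by
    have h3 : ‖z‖ ^ 2 ≤ 1 := by
      rw [Complex.sq_norm, Complex.normSq_apply]
      simp only [hz]
      nlinarith
    nlinarith [norm_nonneg z]
  obtain ⟨i, hi, h⟩ := exists_near n hn z.arg
  refine ⟨i, hi, ?_⟩
  have e : a * Real.cos (i * (Real.pi / n)) + b * Real.sin (i * (Real.pi / n)) =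
      ‖z‖ * Real.cos (z.arg - i * (Real.pi / n)) := by
    rw [Real.cos_sub]
    calc a * Real.cos (i * (Real.pi / n)) + b * Real.sin (i * (Real.pi / n)) =
        (‖z‖ * Real.cos z.arg) * Real.cos (i * (Real.pi / n)) +
          (‖z‖ * Real.sin z.arg) * Real.sin (i * (Real.pi / n)) := by rw [← h1, ← h2]
      _ = _ := by ring
  rw [e, abs_mul, abs_of_nonneg (norm_nonneg z)]
  calc ‖z‖ * |Real.cos (z.arg - i * (Real.pi / n))| ≤
      1 * |Real.cos (z.arg - i * (Real.pi / n))| :=
        mul_le_mul_of_nonneg_right hr (abs_nonneg _)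
    _ ≤ _ := by rw [one_mul]; exact h

/-- the sign of the point number `i`: only the point number one is reversed -/
def sg (i : ℕ) : ℝ := if i = 1 then -1 else 1

lemma sg_sq (i : ℕ) : sg i ^ 2 = 1 := by unfold sg; split_ifs <;> norm_num

/-- the point number `i` of the planar configuration with `n` points -/
noncomputable def pt (d n i : ℕ) : E d :=
  (sg i * Real.cos (i * (Real.pi / n))) • EuclideanSpace.single (0 : Fin (d + 1)) (1 : ℝ) +
  (sg i * Real.sin (i * (Real.pi / n))) • EuclideanSpace.single (1 : Fin (d + 1)) (1 : ℝ)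

lemma coord {d : ℕ} (ρ : Matrix (Fin (d + 1)) (Fin (d + 1)) ℝ) (j k : Fin (d + 1)) :
    (Matrix.toEuclideanLin ρ (EuclideanSpace.single k (1 : ℝ))) j = ρ j k := by
  simp [Matrix.toEuclideanLin, Matrix.toLpLin_apply]

lemma coord_pt {d : ℕ} (ρ : Matrix (Fin (d + 1)) (Fin (d + 1)) ℝ) (n i : ℕ) (j : Fin (d + 1)) :
    (Matrix.toEuclideanLin ρ (pt d n i)) j =
      sg i * (ρ j 0 * Real.cos (i * (Real.pi / n)) + ρ j 1 * Real.sin (i * (Real.pi / n))) := by
  unfold pt
  rw [map_add, map_smul, map_smul, PiLp.add_apply, PiLp.smul_apply, PiLp.smul_apply, coord, coord]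
  simp only [smul_eq_mul]
  ring

lemma pt_apply {d : ℕ} (hd : 1 ≤ d) (n i : ℕ) (j : Fin (d + 1)) :
    (pt d n i) j = (if j = 0 then sg i * Real.cos (i * (Real.pi / n)) else 0) +
      (if j = 1 then sg i * Real.sin (i * (Real.pi / n)) else 0) := by
  unfold pt
  rw [PiLp.add_apply, PiLp.smul_apply, PiLp.smul_apply]
  simp [Pi.single_apply]

lemma zero_ne_one' {d : ℕ} (hd : 1 ≤ d) : (0 : Fin (d + 1)) ≠ 1 := by
  obtain ⟨e, rfl⟩ : ∃ e, d = e + 1 := ⟨d - 1, by omega⟩
  exact Fin.zero_ne_one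

lemma pt_sph {d : ℕ} (hd : 1 ≤ d) (n i : ℕ) : pt d n i ∈ Sph d := by
  unfold Sph
  rw [mem_sphere_zero_iff_norm, EuclideanSpace.norm_eq, Real.sqrt_eq_one]
  have h01 := zero_ne_one' hd
  have e : ∀ j : Fin (d + 1), ‖(pt d n i) j‖ ^ 2 =
      (if j = 0 then (sg i * Real.cos (i * (Real.pi / n))) ^ 2 else 0) +
      (if j = 1 then (sg i * Real.sin (i * (Real.pi / n))) ^ 2 else 0) := by
    intro j
    rw [Real.norm_eq_abs, sq_abs, pt_apply hd]
    by_cases h0 : j = 0
    · subst h0
      rw [if_pos rfl, if_neg h01, if_pos rfl, if_neg h01, add_zero, add_zero]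
    · rw [if_neg h0, if_neg h0, zero_add, zero_add]
      split_ifs <;> simp
  rw [sum_congr rfl fun j _ => e j, sum_add_distrib, Finset.sum_ite_eq' univ 0,
    Finset.sum_ite_eq' univ 1]
  simp only [mem_univ, if_true]
  rw [mul_pow, mul_pow, sg_sq, one_mul, one_mul]
  exact Real.cos_sq_add_sin_sq _

lemma angle_lt {n i : ℕ} (hn : 1 ≤ n) (hi : i < n) : i * (Real.pi / n) < Real.pi := by
  have hn0 : (0 : ℝ) < n := by exact_mod_cast hn
  have h : (i : ℝ) < n := by exact_mod_cast hi
  have hpi := Real.pi_pos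
  calc i * (Real.pi / n) < n * (Real.pi / n) := mul_lt_mul_of_pos_right h (by positivity)
    _ = Real.pi := by field_simp

lemma pt_inj {d : ℕ} (hd : 1 ≤ d) (n : ℕ) (hn : 3 ≤ n) :
    Set.InjOn (pt d n) (↑(range n) : Set ℕ) := by
  have hn0 : (0 : ℝ) < n := by exact_mod_cast (by omega : 0 < n)
  have hpi := Real.pi_pos
  have h01 := zero_ne_one' hd
  have hc : ∀ i i' : ℕ, pt d n i = pt d n i' →
      sg i * Real.cos (i * (Real.pi / n)) = sg i' * Real.cos (i' * (Real.pi / n)) ∧
      sg i * Real.sin (i * (Real.pi / n)) = sg i' * Real.sin (i' * (Real.pi / n)) := by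
    intro i i' h
    have h0 := congrArg (fun v : E d => v 0) h
    have h1 := congrArg (fun v : E d => v 1) h
    have e0 : ∀ i : ℕ, (pt d n i) 0 = sg i * Real.cos (i * (Real.pi / n)) := by
      intro i
      rw [pt_apply hd, if_pos rfl, if_neg h01, add_zero]
    have e1 : ∀ i : ℕ, (pt d n i) 1 = sg i * Real.sin (i * (Real.pi / n)) := by
      intro i
      rw [pt_apply hd, if_neg h01.symm, if_pos rfl, zero_add]
    refine ⟨?_, ?_⟩
    · rw [← e0, ← e0]; exact h0
    · rw [← e1, ← e1]; exact h1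
  have hsin1 : 0 < Real.sin (((1 : ℕ) : ℝ) * (Real.pi / n)) :=
    Real.sin_pos_of_pos_of_lt_pi (by positivity) (angle_lt (by omega) (by omega))
  have hsin : ∀ i : ℕ, i < n → 0 ≤ Real.sin (i * (Real.pi / n)) := fun i hi =>
    Real.sin_nonneg_of_nonneg_of_le_pi (by positivity) (angle_lt (by omega) hi).le
  intro i hi i' hi' h
  rw [coe_range, Set.mem_Iio] at hi hi'
  obtain ⟨h0, h1⟩ := hc i i' h
  by_cases ha : i = 1
  · by_cases hb : i' = 1
    · rw [ha, hb]
    · exfalso
      rw [ha] at h1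
      unfold sg at h1
      rw [if_pos rfl, if_neg hb] at h1
      have := hsin i' hi'
      linarith
  · by_cases hb : i' = 1
    · exfalso
      rw [hb] at h1
      unfold sg at h1
      rw [if_pos rfl, if_neg ha] at h1
      have := hsin i hi
      linarith
    · unfold sg at h0
      rw [if_neg ha, if_neg hb, one_mul, one_mul] at h0
      have h2 := Real.injOn_cos ⟨by positivity, (angle_lt (by omega) hi).le⟩
        ⟨by positivity, (angle_lt (by omega) hi').le⟩ h0
      have h3 : (i : ℝ) = i' := by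
        have h4 : (0 : ℝ) < Real.pi / n := by positivity
        exact mul_right_cancel₀ h4.ne' h2
      exact_mod_cast h3

/-- the number of indices below `r` -/
lemma cnt (d r : ℕ) (hr : r ≤ d + 1) :
    ∑ j : Fin (d + 1), (if j.val < r then (1 : ℝ) else 0) = r := by
  rw [Fin.sum_univ_eq_sum_range (fun j => if j < r then (1 : ℝ) else 0) (d + 1)]
  rw [← sum_filter]
  have : (range (d + 1)).filter (fun j => j < r) = range r := by
    ext j
    simp only [mem_filter, mem_range]
    omega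
  rw [this]
  simp

end Pool.Agent.Y754.BC
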